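import Pool.Agent.J6H49.SY.Defs

/-!
# Project SY, module GRP

Subgroups of small index of a power of a nonabelian simple group contain all factors but few.
-/

set_option autoImplicit false

namespace Pool.Agent.J6H81.SY

variable {ι G : Type} [Fintype ι] [DecidableEq ι] [Group G]

/-- the subgroup of the `γ` such that some `h ∈ H` agrees with `γ` on `S` -/
def HS (H : Subgroup (ι → G)) (S : Finset ι) : Subgroup (ι → G) where
  carrier := {γ | ∃ h ∈ H, ∀ i ∈ S, h i = γ i}
  one_mem' := ⟨1, H.one_mem, fun _ _ => rfl⟩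
  mul_mem' := by
    rintro a b ⟨h, hh, h1⟩ ⟨g, hg, h2⟩
    exact ⟨h * g, H.mul_mem hh hg, fun i hi => by
      rw [Pi.mul_apply, Pi.mul_apply, h1 i hi, h2 i hi]⟩
  inv_mem' := by
    rintro a ⟨h, hh, h1⟩
    exact ⟨h⁻¹, H.inv_mem hh, fun i hi => by rw [Pi.inv_apply, Pi.inv_apply, h1 i hi]⟩

omit [Fintype ι] [DecidableEq ι] in
theorem mem_HS {H : Subgroup (ι → G)} {S : Finset ι} {γ : ι → G} :
    γ ∈ HS H S ↔ ∃ h ∈ H, ∀ i ∈ S, h i = γ i := Iff.rfl

omit [Fintype ι] [DecidableEq ι] in
theorem HS_agree {H : Subgroup (ι → G)} {S : Finset ι} {γ δ : ι → G} (hγ : γ ∈ HS H S)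
    (h : ∀ i ∈ S, γ i = δ i) : δ ∈ HS H S := by
  obtain ⟨g, hg, h1⟩ := hγ
  exact ⟨g, hg, fun i hi => (h1 i hi).trans (h i hi)⟩

omit [Fintype ι] [DecidableEq ι] in
theorem HS_anti {H : Subgroup (ι → G)} {S S' : Finset ι} (h : S ⊆ S') : HS H S' ≤ HS H S := by
  rintro γ ⟨g, hg, h1⟩
  exact ⟨g, hg, fun i hi => h1 i (h hi)⟩

omit [Fintype ι] [DecidableEq ι] in
theorem le_HS (H : Subgroup (ι → G)) (S : Finset ι) : H ≤ HS H S :=
  fun γ hγ => ⟨γ, hγ, fun _ _ => rfl⟩

omit [DecidableEq ι] in
theorem HS_univ (H : Subgroup (ι → G)) : HS H Finset.univ = H := by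
  refine le_antisymm ?_ (le_HS H _)
  rintro γ ⟨g, hg, h1⟩
  have : g = γ := funext fun i => h1 i (Finset.mem_univ i)
  rwa [← this]

omit [Fintype ι] in
theorem HS_single {H : Subgroup (ι → G)} {S : Finset ι} {k : ι} (hk : k ∉ S) (a : G) :
    Pi.mulSingle k a ∈ HS H S := by
  refine ⟨1, H.one_mem, fun i hi => ?_⟩
  have : i ≠ k := fun h => hk (h ▸ hi)
  rw [Pi.mulSingle_eq_of_ne this]
  rfl

omit [Fintype ι] in
/-- conjugation of a single -/
theorem conj_single (h : ι → G) (i : ι) (a : G) :
    h * Pi.mulSingle i a * h⁻¹ = Pi.mulSingle i (h i * a * (h i)⁻¹) := by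
  funext j
  by_cases hj : j = i
  · subst hj
    simp
  · simp [Pi.mulSingle_eq_of_ne hj]

omit [Fintype ι] in
/-- a pair of coordinates -/
theorem pair_mem {H : Subgroup (ι → G)} {S : Finset ι} {k i : ι} (hk : k ∉ S) (hi : i ∈ S)
    (x : G) (hf : Pi.mulSingle i x ∈ HS H S) :
    ∃ c : G, Pi.mulSingle i x * Pi.mulSingle k c ∈ HS H (insert k S) := by
  obtain ⟨h, hh, h1⟩ := hf
  have hik : i ≠ k := fun e => hk (e ▸ hi)
  refine ⟨h k, h, hh, fun j hj => ?_⟩
  rw [Finset.mem_insert] at hj
  rw [Pi.mul_apply]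
  rcases hj with rfl | hj
  · rw [Pi.mulSingle_eq_of_ne hik.symm, Pi.mulSingle_eq_same, one_mul]
  · have hjk : j ≠ k := fun e => hk (e ▸ hj)
    rw [Pi.mulSingle_eq_of_ne hjk, mul_one, h1 j hj]

/-- the subgroup of the `a` with `mulSingle i a ∈ K` -/
def comp (K : Subgroup (ι → G)) (i : ι) : Subgroup G where
  carrier := {a | Pi.mulSingle i a ∈ K}
  one_mem' := by
    change Pi.mulSingle i 1 ∈ K
    rw [Pi.mulSingle_one]
    exact K.one_mem
  mul_mem' := by
    intro a b ha hb
    change Pi.mulSingle i (a * b) ∈ K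
    rw [Pi.mulSingle_mul]
    exact K.mul_mem ha hb
  inv_mem' := by
    intro a ha
    change Pi.mulSingle i a⁻¹ ∈ K
    rw [Pi.mulSingle_inv]
    exact K.inv_mem ha

omit [Fintype ι] in
/-- a coordinate with enough conjugations is full or trivial -/
theorem triv_of_conj [IsSimpleGroup G] {K : Subgroup (ι → G)} {i : ι}
    (hc : ∀ x : G, ∃ h ∈ K, h i = x) (hn : ¬ ∀ a, Pi.mulSingle i a ∈ K) (a : G)
    (ha : Pi.mulSingle i a ∈ K) : a = 1 := by
  have hN : (comp K i).Normal := by
    refine ⟨fun a ha x => ?_⟩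
    obtain ⟨h, hh, rfl⟩ := hc x
    change Pi.mulSingle i _ ∈ K
    rw [← conj_single]
    exact K.mul_mem (K.mul_mem hh ha) (K.inv_mem hh)
  rcases hN.eq_bot_or_eq_top with h | h
  · have : a ∈ comp K i := ha
    rw [h] at this
    exact Subgroup.mem_bot.1 this
  · exact absurd (fun a => (h ▸ Subgroup.mem_top a : a ∈ comp K i)) hn

omit [Fintype ι] in
/-- the situation at a bad coordinate -/
theorem bad [Fintype G] [IsSimpleGroup G] {H : Subgroup (ι → G)} {S : Finset ι} {k i : ι}
    (hk : k ∉ S) (hi : i ∈ S) (hf : ∀ a, Pi.mulSingle i a ∈ HS H S)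
    (hn : ¬ ∀ a, Pi.mulSingle i a ∈ HS H (insert k S))
    (hnk : ¬ ∀ a, Pi.mulSingle k a ∈ HS H (insert k S)) :
    (∀ c : G, ∃ x : G, Pi.mulSingle i x * Pi.mulSingle k c ∈ HS H (insert k S)) ∧
      ∀ a : G, Pi.mulSingle k a ∈ HS H (insert k S) → a = 1 := by
  have hik : i ≠ k := fun e => hk (e ▸ hi)
  have h1 : ∀ a : G, Pi.mulSingle i a ∈ HS H (insert k S) → a = 1 := by
    refine triv_of_conj (fun x => ?_) hn
    obtain ⟨h, hh, h1⟩ := hf x
    exact ⟨h, le_HS H _ hh, by rw [h1 i hi, Pi.mulSingle_eq_same]⟩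
  choose φ hφ using fun x => pair_mem hk hi x (hf x)
  have hinj : Function.Injective φ := by
    intro x y hxy
    have h2 := (HS H (insert k S)).mul_mem (hφ x) ((HS H (insert k S)).inv_mem (hφ y))
    have h3 : Pi.mulSingle i x * Pi.mulSingle k (φ x) *
        (Pi.mulSingle i y * Pi.mulSingle k (φ y))⁻¹ = (Pi.mulSingle i (x * y⁻¹) : ι → G) := by
      rw [hxy, Pi.mulSingle_mul, Pi.mulSingle_inv]
      group
    rw [h3] at h2
    exact mul_inv_eq_one.1 (h1 _ h2)
  have hsurj : Function.Surjective φ := Finite.surjective_of_injective hinj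
  have hall : ∀ c : G, ∃ x : G, Pi.mulSingle i x * Pi.mulSingle k c ∈ HS H (insert k S) := by
    intro c
    obtain ⟨x, rfl⟩ := hsurj c
    exact ⟨x, hφ x⟩
  refine ⟨hall, triv_of_conj (fun c => ?_) hnk⟩
  obtain ⟨x, hx⟩ := hall c
  refine ⟨_, hx, ?_⟩
  rw [Pi.mul_apply, Pi.mulSingle_eq_of_ne hik.symm, Pi.mulSingle_eq_same, one_mul]

open Classical in
/-- the set of the coordinates of `S` which are not full -/
noncomputable def IS (H : Subgroup (ι → G)) (S : Finset ι) : Finset ι :=
  S.filter (fun i => ¬ ∀ a, Pi.mulSingle i a ∈ HS H S)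

omit [Fintype ι] in
theorem mem_IS {H : Subgroup (ι → G)} {S : Finset ι} {i : ι} :
    i ∈ IS H S ↔ i ∈ S ∧ ¬ ∀ a, Pi.mulSingle i a ∈ HS H S := by
  classical
  rw [IS, Finset.mem_filter]

omit [DecidableEq ι] in
theorem index_pos' [Finite G] (K : Subgroup (ι → G)) : 0 < K.index :=
  Nat.pos_of_ne_zero K.index_ne_zero_of_finite

omit [DecidableEq ι] in
/-- index of a proper subgroup -/
theorem two_mul_index [Finite G] {K L : Subgroup (ι → G)} (h : K ≤ L) (hne : ¬ L ≤ K) :
    2 * L.index ≤ K.index := by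
  rw [← Subgroup.relIndex_mul_index h]
  refine Nat.mul_le_mul_right _ ?_
  have h1 : K.relIndex L ≠ 1 := fun e => hne (Subgroup.relIndex_eq_one.1 e)
  have h0 : K.relIndex L ≠ 0 := by
    intro e
    have := Subgroup.relIndex_mul_index h
    rw [e, zero_mul] at this
    exact (index_pos' K).ne this
  omega

/-- index of a subgroup which meets a coordinate trivially -/
theorem four_mul_index [Fintype G] (h4 : 4 ≤ Fintype.card G) {K L : Subgroup (ι → G)} {k : ι}
    (h : K ≤ L) (hL : ∀ a, Pi.mulSingle k a ∈ L) (hK : ∀ a, Pi.mulSingle k a ∈ K → a = 1) :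
    4 * L.index ≤ K.index := by
  rw [← Subgroup.relIndex_mul_index h]
  refine Nat.mul_le_mul_right _ ?_
  have h1 : Function.Injective
      (fun a : G => (QuotientGroup.mk (⟨Pi.mulSingle k a, hL a⟩ : L) : L ⧸ K.subgroupOf L)) := by
    intro a b hab
    have h2 := QuotientGroup.eq.1 hab
    rw [Subgroup.mem_subgroupOf] at h2
    have h3 : (Pi.mulSingle k (a⁻¹ * b) : ι → G) ∈ K := by
      rw [Pi.mulSingle_mul, Pi.mulSingle_inv]
      exact h2
    exact inv_mul_eq_one.1 (hK _ h3)
  have h2 := Nat.card_le_card_of_injective _ h1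
  rw [Nat.card_eq_fintype_card] at h2
  exact h4.trans h2

/-- the induction -/
theorem pow_le_index [Fintype G] [IsSimpleGroup G] (hab : ∃ a b : G, a * b ≠ b * a)
    (h4 : 4 ≤ Fintype.card G) (H : Subgroup (ι → G)) (S : Finset ι) :
    2 ^ (IS H S).card ≤ (HS H S).index := by
  classical
  induction S using Finset.induction_on with
  | empty =>
    have : IS H (∅ : Finset ι) = ∅ := by
      refine Finset.eq_empty_of_forall_notMem fun i hi => ?_
      exact absurd (mem_IS.1 hi).1 (Finset.notMem_empty i)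
    rw [this, Finset.card_empty, pow_zero]
    exact index_pos' _
  | insert k S hk ih =>
    have hle : HS H (insert k S) ≤ HS H S := HS_anti (Finset.subset_insert k S)
    by_cases hfk : ∀ a, Pi.mulSingle k a ∈ HS H (insert k S)
    · -- case A
      have hsub : IS H (insert k S) ⊆ IS H S := by
        intro i hi
        obtain ⟨hi1, hi2⟩ := mem_IS.1 hi
        have hik : i ≠ k := fun e => hi2 (e ▸ hfk)
        have hiS : i ∈ S := (Finset.mem_insert.1 hi1).resolve_left hik
        refine mem_IS.2 ⟨hiS, fun hf => hi2 fun a => ?_⟩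
        obtain ⟨c, hc⟩ := pair_mem hk hiS a (hf a)
        have h1 := (HS H (insert k S)).mul_mem hc ((HS H (insert k S)).inv_mem (hfk c))
        rwa [mul_inv_cancel_right] at h1
      calc 2 ^ (IS H (insert k S)).card ≤ 2 ^ (IS H S).card :=
            Nat.pow_le_pow_right (by norm_num) (Finset.card_le_card hsub)
        _ ≤ (HS H S).index := ih
        _ ≤ (HS H (insert k S)).index :=
            Nat.le_of_dvd (index_pos' _) (Subgroup.index_dvd_of_le hle)
    · by_cases hbad : ∃ i ∈ S, (∀ a, Pi.mulSingle i a ∈ HS H S) ∧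
          ¬ ∀ a, Pi.mulSingle i a ∈ HS H (insert k S)
      · obtain ⟨i, hiS, hf, hn⟩ := hbad
        obtain ⟨b1, b2⟩ := bad hk hiS hf hn hfk
        have hik : i ≠ k := fun e => hk (e ▸ hiS)
        have hidx := four_mul_index h4 hle (fun a => HS_single hk a) b2
        have hsub : IS H (insert k S) ⊆ insert k (insert i (IS H S)) := by
          intro j hj
          obtain ⟨hj1, hj2⟩ := mem_IS.1 hj
          rw [Finset.mem_insert, Finset.mem_insert]
          by_cases hjk : j = k
          · exact Or.inl hjk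
          refine Or.inr ?_
          have hjS : j ∈ S := (Finset.mem_insert.1 hj1).resolve_left hjk
          by_cases hji : j = i
          · exact Or.inl hji
          refine Or.inr (mem_IS.2 ⟨hjS, fun hjf => ?_⟩)
          obtain ⟨c1, -⟩ := bad hk hjS hjf hj2 hfk
          obtain ⟨a, b, hne⟩ := hab
          obtain ⟨x, hx⟩ := b1 a
          obtain ⟨y, hy⟩ := c1 b
          have hcomm := (HS H (insert k S)).mul_mem ((HS H (insert k S)).mul_mem
            ((HS H (insert k S)).mul_mem hx hy) ((HS H (insert k S)).inv_mem hx))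
            ((HS H (insert k S)).inv_mem hy)
          have heq : Pi.mulSingle i x * Pi.mulSingle k a * (Pi.mulSingle j y * Pi.mulSingle k b) *
              (Pi.mulSingle i x * Pi.mulSingle k a)⁻¹ * (Pi.mulSingle j y * Pi.mulSingle k b)⁻¹ =
              (Pi.mulSingle k (a * b * a⁻¹ * b⁻¹) : ι → G) := by
            funext l
            by_cases hl : l = k
            · subst hl
              simp [Pi.mulSingle_eq_of_ne hik.symm, Pi.mulSingle_eq_of_ne (Ne.symm hjk), mul_assoc]
            · by_cases hli : l = i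
              · subst hli
                simp [Pi.mulSingle_eq_of_ne hl, Pi.mulSingle_eq_of_ne (Ne.symm hji)]
              · by_cases hlj : l = j
                · subst hlj
                  simp [Pi.mulSingle_eq_of_ne hl, Pi.mulSingle_eq_of_ne hli]
                · simp [Pi.mulSingle_eq_of_ne hl, Pi.mulSingle_eq_of_ne hli,
                    Pi.mulSingle_eq_of_ne hlj]
          rw [heq] at hcomm
          have h5 := b2 _ hcomm
          exact hne (by
            have h6 : a * b * a⁻¹ = b := mul_inv_eq_one.1 h5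
            exact mul_inv_eq_iff_eq_mul.1 h6)
        have hcard : (IS H (insert k S)).card ≤ (IS H S).card + 2 :=
          (Finset.card_le_card hsub).trans ((Finset.card_insert_le _ _).trans
            (Nat.succ_le_succ (Finset.card_insert_le _ _)))
        calc 2 ^ (IS H (insert k S)).card ≤ 2 ^ ((IS H S).card + 2) :=
              Nat.pow_le_pow_right (by norm_num) hcard
          _ = 4 * 2 ^ (IS H S).card := by ring
          _ ≤ 4 * (HS H S).index := Nat.mul_le_mul_left _ ih
          _ ≤ _ := hidx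
      · push Not at hbad
        have hidx : 2 * (HS H S).index ≤ (HS H (insert k S)).index := by
          refine two_mul_index hle fun hle' => hfk fun a => hle' (HS_single hk a)
        have hsub : IS H (insert k S) ⊆ insert k (IS H S) := by
          intro j hj
          obtain ⟨hj1, hj2⟩ := mem_IS.1 hj
          rw [Finset.mem_insert]
          by_cases hjk : j = k
          · exact Or.inl hjk
          have hjS : j ∈ S := (Finset.mem_insert.1 hj1).resolve_left hjk
          exact Or.inr (mem_IS.2 ⟨hjS, fun hjf => hj2 (hbad j hjS hjf)⟩)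
        have hcard : (IS H (insert k S)).card ≤ (IS H S).card + 1 :=
          (Finset.card_le_card hsub).trans (Finset.card_insert_le _ _)
        calc 2 ^ (IS H (insert k S)).card ≤ 2 ^ ((IS H S).card + 1) :=
              Nat.pow_le_pow_right (by norm_num) hcard
          _ = 2 * 2 ^ (IS H S).card := by ring
          _ ≤ 2 * (HS H S).index := Nat.mul_le_mul_left _ ih
          _ ≤ _ := hidx

/-- **GRP** -/
theorem main : Pool.Agent.J6H49.SY.S_GRP := by
  intro ι G _ _ _ _ _ hab h4 H
  refine ⟨IS H Finset.univ, ?_, fun γ hγ => ?_⟩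
  · have := pow_le_index hab h4 H Finset.univ
    rwa [HS_univ] at this
  · refine Subgroup.pi_mem_of_mulSingle_mem γ fun i => ?_
    by_cases hi : i ∈ IS H Finset.univ
    · rw [hγ i hi, Pi.mulSingle_one]
      exact H.one_mem
    · by_contra hcon
      refine hi (mem_IS.2 ⟨Finset.mem_univ i, fun hf => hcon ?_⟩)
      have := hf (γ i)
      rwa [HS_univ] at this

end Pool.Agent.J6H81.SY
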